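import Pool.Agent.H31.DPD.Targets

/-!
# (ID) the sum of the defect over the domain is a sum of squares
-/

set_option autoImplicit false

open Finset

namespace Pool.Agent.H56.DPD

open Pool.Agent.H91.LF (par)
open Pool.Agent.H31.DP Pool.Agent.H31.DPD

/-- the point with the coordinates `y, y', s` -/
def pt {d : ℕ} (y y' : ℤ) (s : Fin d → ℤ) : Fin (d + 2) → ℤ := Fin.cons y (Fin.cons y' s)

theorem pt_par {d : ℕ} (y y' : ℤ) (s : Fin d → ℤ) : par (pt y y' s) = s := rfl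

theorem pt_zero {d : ℕ} (y y' : ℤ) (s : Fin d → ℤ) : pt y y' s 0 = y := rfl

theorem pt_one {d : ℕ} (y y' : ℤ) (s : Fin d → ℤ) : pt y y' s 1 = y' := rfl

theorem pt_eta {d : ℕ} (ω : Fin (d + 2) → ℤ) : pt (ω 0) (ω 1) (par ω) = ω := by
  funext i
  refine Fin.cases rfl (fun j => ?_) i
  refine Fin.cases rfl (fun l => rfl) j

theorem mem_Oc {d M : ℕ} {ω : Fin (d + 2) → ℤ} : ω ∈ Oc d M ↔
    (∀ i, -(M : ℤ) ≤ ω i ∧ ω i ≤ M) ∧ ω 0 ∈ IC M (par ω) ∧ ω 1 ∈ IC M (par ω) := by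
  unfold Oc
  simp only [Finset.mem_filter, Fintype.mem_piFinset, Finset.mem_Icc]

theorem IC_le {d M : ℕ} {s : Fin d → ℤ} {y : ℤ} (h : y ∈ IC M s) : 1 ≤ y ∧ y ≤ M := by
  unfold IC at h
  exact Finset.mem_Icc.1 (Finset.mem_filter.1 h).1

theorem sum_Oc (d M : ℕ) (f : (Fin (d + 2) → ℤ) → ℝ) : ∑ ω ∈ Oc d M, f ω =
    ∑ s ∈ Fintype.piFinset (fun _ : Fin d => Finset.Icc (-(M : ℤ)) M),
      ∑ y ∈ IC M s, ∑ y' ∈ IC M s, f (pt y y' s) := by
  have h1 : ∀ s : Fin d → ℤ, ∑ y ∈ IC M s, ∑ y' ∈ IC M s, f (pt y y' s) =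
      ∑ q ∈ IC M s ×ˢ IC M s, f (pt q.1 q.2 s) := fun s =>
    (Finset.sum_product (IC M s) (IC M s) (fun q : ℤ × ℤ => f (pt q.1 q.2 s))).symm
  simp only [h1]
  rw [Finset.sum_sigma']
  refine Finset.sum_nbij' (fun ω => ⟨par ω, (ω 0, ω 1)⟩) (fun q => pt q.2.1 q.2.2 q.1) ?_ ?_ ?_
    ?_ ?_
  · intro ω hω
    obtain ⟨h2, h3, h4⟩ := mem_Oc.1 hω
    refine Finset.mem_sigma.2 ⟨Fintype.mem_piFinset.2 fun i => Finset.mem_Icc.2 (h2 _),
      Finset.mem_product.2 ⟨h3, h4⟩⟩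
  · rintro ⟨s, y, y'⟩ hq
    obtain ⟨h2, h3⟩ := Finset.mem_sigma.1 hq
    obtain ⟨h4, h5⟩ := Finset.mem_product.1 h3
    have h4 : y ∈ IC M s := h4
    have h5 : y' ∈ IC M s := h5
    have h6 := IC_le h4
    have h7 := IC_le h5
    have h8 : ∀ i, -(M : ℤ) ≤ s i ∧ s i ≤ M := fun i =>
      Finset.mem_Icc.1 (Fintype.mem_piFinset.1 h2 i)
    refine mem_Oc.2 ⟨?_, h4, h5⟩
    intro i
    refine Fin.cases ?_ (fun j => ?_) i
    · change -(M : ℤ) ≤ y ∧ y ≤ M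
      exact ⟨by omega, h6.2⟩
    · refine Fin.cases ?_ (fun l => ?_) j
      · change -(M : ℤ) ≤ y' ∧ y' ≤ M
        exact ⟨by omega, h7.2⟩
      · exact h8 l
  · intro ω _
    exact pt_eta ω
  · rintro ⟨s, y, y'⟩ _
    rfl
  · intro ω _
    change f ω = f (pt (ω 0) (ω 1) (par ω))
    rw [pt_eta]

theorem pf_ID : P_ID := by
  intro d l h p M _
  classical
  rw [sum_Oc]
  have hm : mulc d p M = (Fintype.piFinset (fun _ : Fin d => Finset.Icc (-(M : ℤ)) M)).filter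
      (fun s => ∀ i, (p : ℤ) ∣ s i) := by
    ext s
    unfold mulc mul
    simp only [Finset.mem_filter, Fintype.mem_piFinset]
    exact ⟨fun h => ⟨fun i => (h i).1, fun i => (h i).2⟩, fun h i => ⟨h.1 i, h.2 i⟩⟩
  unfold DDc
  rw [hm, Finset.mul_sum, Finset.sum_filter]
  refine Finset.sum_congr rfl fun s _ => ?_
  have h1 : ∀ y y' : ℤ, dc h p (pt y y' s) = (p : ℝ) ^ d * ind (∀ i : Fin d, (p : ℤ) ∣ s i) *
      ((bal p y * GC h p s y) * (bal p y' * GC h p s y')) := by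
    intro y y'
    have h2 : dc h p (pt y y' s) = (p : ℝ) ^ d * ind (∀ i : Fin d, (p : ℤ) ∣ s i) *
        (bal p y * bal p y' * (GC h p s y * GC h p s y')) := rfl
    rw [h2]
    ring
  simp only [h1]
  simp only [← Finset.mul_sum, ← Finset.sum_mul]
  unfold TTc ind
  split_ifs with hs
  · ring
  · ring

end Pool.Agent.H56.DPD
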